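import Pool.Agent.MP_09973c_nt.H95.EA

/-!
Anticoncentration of the escape rate along chains of preimages in the complex numbers.
-/

set_option autoImplicit false

namespace Pool.Agent.MP_09973c_nt.H95

open Finset Pool.Agent.MP_09973c_nt.H58

theorem log_sub_le {x y : ℝ} (hx : 0 < x) (hy : 0 < y) : Real.log x - Real.log y ≤ (x - y) / y := by
  rw [← Real.log_div hx.ne' hy.ne', sub_div, div_self hy.ne']
  exact Real.log_le_sub_one_of_pos (div_pos hx hy)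

theorem norm_pow_sub_pow {x y : ℂ} {M : ℝ} (hx : ‖x‖ ≤ M) (hy : ‖y‖ ≤ M) (n : ℕ) :
    ‖x ^ (n + 1) - y ^ (n + 1)‖ ≤ (n + 1) * ‖x - y‖ * M ^ n := by
  have hM : 0 ≤ M := (norm_nonneg _).trans hx
  induction n with
  | zero => simp
  | succ n ih =>
    have e : x ^ (n + 1 + 1) - y ^ (n + 1 + 1) =
        x * (x ^ (n + 1) - y ^ (n + 1)) + (x - y) * y ^ (n + 1) := by ring
    have h1 : ‖x * (x ^ (n + 1) - y ^ (n + 1))‖ ≤ M * ((n + 1) * ‖x - y‖ * M ^ n) := by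
      rw [norm_mul]; exact mul_le_mul hx ih (norm_nonneg _) hM
    have h2 : ‖(x - y) * y ^ (n + 1)‖ ≤ ‖x - y‖ * M ^ (n + 1) := by
      rw [norm_mul, norm_pow]
      exact mul_le_mul_of_nonneg_left (pow_le_pow_left₀ (norm_nonneg _) hy _) (norm_nonneg _)
    rw [e]
    refine (norm_add_le _ _).trans ((add_le_add h1 h2).trans (le_of_eq ?_))
    push_cast; ring

theorem lp_up {p q : ℕ} (hp : 0 < p) (hpq : p < q) {a x y : ℂ} (h : x ^ p + a = y ^ q)
    (hy : Real.log (1 + ‖a‖) ≤ lp y) : lp y ≤ lp x := by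
  have h1 := (abs_le.1 (lp_step le_rfl h)).2
  have hq : (p : ℝ) + 1 ≤ q := by exact_mod_cast hpq
  have hp' : (0 : ℝ) < p := by exact_mod_cast hp
  have h0 := lp_nonneg y
  refine le_of_mul_le_mul_left ?_ hp'
  nlinarith

theorem lp_dn {p q : ℕ} (hp : 0 < p) {a x y : ℂ} (h : x ^ p + a = y ^ q) :
    lp x ≤ q * lp y + Real.log (1 + ‖a‖) := by
  have h1 := (abs_le.1 (lp_step le_rfl h)).1
  have hp' : (1 : ℝ) ≤ p := by exact_mod_cast hp
  have h0 := lp_nonneg x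
  nlinarith

theorem le_norm_of_le_lp {x : ℂ} {B : ℝ} (hB : 0 < B) (h : B ≤ lp x) : B + 1 ≤ ‖x‖ := by
  rw [norm_eq_exp_lp (hB.trans_le h)]
  exact (Real.add_one_le_exp B).trans (Real.exp_le_exp.2 h)

/-- One step of a chain, far from the origin. -/
theorem fine_step {p q : ℕ} {a x y : ℂ} {T : ℝ} (h : x ^ p + a = y ^ q) (hT : T ≤ ‖y ^ q‖)
    (h2 : 2 ≤ T) (ha : 2 * ‖a‖ ≤ T) : |p * lp x - q * lp y| ≤ 2 * ‖a‖ / T := by
  have h1 : ‖y ^ q‖ ≤ ‖x ^ p‖ + ‖a‖ := h ▸ norm_add_le _ _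
  have h3 : ‖x ^ p‖ ≤ ‖y ^ q‖ + ‖a‖ := by
    rw [show x ^ p = y ^ q - a by rw [← h]; ring]; exact norm_sub_le _ _
  have ha0 := norm_nonneg a
  rw [← lp_pow, ← lp_pow, lp_eq_log (by linarith), lp_eq_log (by linarith), abs_le]
  constructor
  · have h4 := log_sub_le (x := ‖y ^ q‖) (y := ‖x ^ p‖) (by linarith) (by linarith)
    have h5 : (‖y ^ q‖ - ‖x ^ p‖) / ‖x ^ p‖ ≤ 2 * ‖a‖ / T := by
      rw [div_le_div_iff₀ (by linarith) (by linarith)]
      nlinarith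
    linarith
  · refine (log_sub_le (by linarith) (by linarith)).trans ?_
    rw [div_le_div_iff₀ (by linarith) (by linarith)]
    nlinarith

/-- After one step the chain is much larger than its first point. -/
theorem low {p q J : ℕ} (hp : 0 < p) (hpq : p < q) {a : ℂ} {z : ℕ → ℂ} (hz : Bwd p q a J z)
    {K : ℝ} (hK : 0 < K) (h0 : Real.log (1 + ‖a‖) + K ≤ lp (z 0)) (l : ℕ) (hl : l + 1 ≤ J) :
    ‖z 0 ^ q‖ * K ≤ ‖z (l + 1) ^ q‖ := by
  have hq : (p : ℝ) + 1 ≤ q := by exact_mod_cast hpq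
  have hp' : (0 : ℝ) < p := by exact_mod_cast hp
  have hL := log_one_add_nonneg (norm_nonneg a)
  have key : q * lp (z 0) + K ≤ q * lp (z (l + 1)) := by
    induction l with
    | zero =>
      have h1 := (abs_le.1 (lp_step le_rfl (hz 0 (by omega)))).2
      have h2 := lp_up hp hpq (hz 0 (by omega)) (by linarith)
      have h3 := lp_nonneg (z (0 + 1))
      nlinarith
    | succ l ih =>
      have h1 := ih (by omega)
      have h2 : lp (z 0) ≤ lp (z (l + 1)) := le_of_mul_le_mul_left (a := (q : ℝ)) (by linarith)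
        (by linarith)
      have h3 := lp_up hp hpq (hz (l + 1) (by omega)) (by linarith)
      nlinarith
  rw [← lp_pow, ← lp_pow] at key
  have h1 := lp_nonneg (z 0 ^ q)
  rw [norm_eq_exp_lp (x := z (l + 1) ^ q) (by linarith)]
  refine le_trans ?_ (Real.exp_le_exp.2 key)
  rw [Real.exp_add]
  exact mul_le_mul (norm_le_exp_lp _) (by linarith [Real.add_one_le_exp K]) hK.le (by positivity)

/-- Two chains from points of equal modulus and different direction drift apart. -/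
theorem drift {p q : ℕ} (hp : 0 < p) (hpq : p < q) {a : ℂ} (ha : a ≠ 0) {c : ℝ} (hc : 0 < c) :
    ∃ B : ℝ, ∀ W A : ℝ, ∃ J₁ : ℕ, ∀ J, J₁ ≤ J → ∀ z z' : ℕ → ℂ, Bwd p q a J z → Bwd p q a J z' →
      ‖z' 0‖ = ‖z 0‖ → B ≤ lp (z 0) → lp (z 0) ≤ W →
      c * (‖z 0 ^ q‖ * ‖a‖) ≤ ((z 0 ^ q - z' 0 ^ q) * (starRingEnd ℂ) a).re →
      A ≤ lp (z' J) - lp (z J) := by
  have hq : (p : ℝ) + 1 ≤ q := by exact_mod_cast hpq
  have hp' : (0 : ℝ) < p := by exact_mod_cast hp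
  have hp1 : (1 : ℝ) ≤ p := by exact_mod_cast hp
  have hL := log_one_add_nonneg (norm_nonneg a)
  have ha0 : 0 < ‖a‖ := norm_pos_iff.2 ha
  have hpc : 0 < 32 * p / c := by positivity
  set K := 2 + 2 * ‖a‖ + 32 * p / c with hK
  refine ⟨Real.log (1 + ‖a‖) + K, fun W A => ?_⟩
  set e₀ := c * ‖a‖ / (8 * p ^ 2 * Real.exp (q * W)) with he₀
  have he0 : 0 < e₀ := by positivity
  obtain ⟨k, hk⟩ := exists_nat_ge (A / e₀)
  refine ⟨k + 1, fun J hJ z z' hz hz' hn hB hW hd => ?_⟩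
  have hn' : ‖z' 0 ^ q‖ = ‖z 0 ^ q‖ := by rw [norm_pow, hn, norm_pow]
  have hl' : lp (z' 0) = lp (z 0) := lp_congr hn
  set R := ‖z 0 ^ q‖ with hR
  have hRK : K + 1 ≤ R := le_norm_of_le_lp (by linarith) (by
    rw [lp_pow]; nlinarith [lp_nonneg (z 0)])
  have hRW : R ≤ Real.exp (q * W) := (norm_le_exp_lp _).trans (Real.exp_le_exp.2 (by
    rw [lp_pow]; exact mul_le_mul_of_nonneg_left hW (by positivity)))
  have hR0 : 0 < R := by linarith
  set e := c * ‖a‖ / (8 * p ^ 2 * R) with he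
  have hee : e₀ ≤ e := div_le_div_of_nonneg_left (by positivity) (by positivity)
    (mul_le_mul_of_nonneg_left hRW (by positivity))
  have hT1 : 2 ≤ R * K := by nlinarith
  have hT2 : 2 * ‖a‖ ≤ R * K := by nlinarith
  have hT3 : 2 * ‖a‖ / (R * K) ≤ p * e / 2 := by
    have h1 : p * e / 2 = 2 * ‖a‖ / (R * (32 * p / c)) := by
      rw [he]; field_simp; ring
    rw [h1]
    exact div_le_div_of_nonneg_left (by positivity) (by positivity)
      (mul_le_mul_of_nonneg_left (by linarith) hR0.le)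
  have key : ∀ l, l + 1 ≤ J → 2 * p * e + l * e ≤ lp (z' (l + 1)) - lp (z (l + 1)) := by
    intro l hl
    induction l with
    | zero =>
      have e1 : z (0 + 1) ^ p = z 0 ^ q + -a := by rw [← hz 0 (by omega)]; ring
      have e2 : z' (0 + 1) ^ p = z' 0 ^ q + -a := by rw [← hz' 0 (by omega)]; ring
      have h1 := norm_add_sq (z 0 ^ q) (-a)
      have h2 := norm_add_sq (z' 0 ^ q) (-a)
      have h3 : ‖z' 0 ^ q + -a‖ ≤ R + ‖a‖ := by
        simpa only [hn', norm_neg] using norm_add_le (z' 0 ^ q) (-a)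
      have h4 : R ≤ ‖z' 0 ^ q + -a‖ + ‖a‖ := by
        simpa only [hn', neg_add_cancel_right] using norm_add_le (z' 0 ^ q + -a) a
      have h5 : R ≤ ‖z 0 ^ q + -a‖ + ‖a‖ := by
        simpa only [neg_add_cancel_right] using norm_add_le (z 0 ^ q + -a) a
      rw [hn'] at h2
      rw [← e1] at h1 h5
      rw [← e2] at h2 h3 h4
      rw [map_neg, mul_neg, Complex.neg_re, norm_neg] at h1 h2
      rw [sub_mul, Complex.sub_re] at hd
      set N := ‖z (0 + 1) ^ p‖ with hN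
      set N' := ‖z' (0 + 1) ^ p‖ with hN'
      have h6 : 1 ≤ N := by linarith
      have h7 : 1 ≤ N' := by linarith
      have h8 := log_sub_le (x := N ^ 2) (y := N' ^ 2) (by positivity) (by positivity)
      have h9 : (N ^ 2 - N' ^ 2) / N' ^ 2 ≤ -(4 * p ^ 2 * e) := by
        have h10 : 4 * p ^ 2 * e = c * ‖a‖ / (2 * R) := by
          rw [he]; field_simp; ring
        have h11 : N' ^ 2 ≤ (2 * R) ^ 2 := pow_le_pow_left₀ (by linarith) (by linarith) 2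
        rw [h10, ← neg_div, div_le_div_iff₀ (by positivity) (by positivity)]
        have h12 : N ^ 2 - N' ^ 2 ≤ -(2 * (c * (R * ‖a‖))) := by linarith
        have h13 := mul_le_mul_of_nonneg_right h12 (by positivity : 0 ≤ 2 * R)
        have h14 := mul_le_mul_of_nonneg_left h11 (by positivity : 0 ≤ c * ‖a‖)
        nlinarith
      rw [Real.log_pow, Real.log_pow, ← lp_eq_log h6, ← lp_eq_log h7, lp_pow, lp_pow] at h8
      push_cast at h8 ⊢
      refine le_of_mul_le_mul_left ?_ hp'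
      nlinarith
    | succ l ih =>
      have h1 := ih (by omega)
      have h2 := (abs_le.1 (fine_step (hz (l + 1) (by omega))
        (low hp hpq hz (by linarith) hB l (by omega)) hT1 hT2)).2
      have h3 := (abs_le.1 (fine_step (hz' (l + 1) (by omega))
        (hn' ▸ low hp hpq hz' (by linarith) (hl' ▸ hB) l (by omega)) hT1 hT2)).1
      have h4 : 0 ≤ l * e := by have := he0.le.trans hee; positivity
      have h5 : 0 ≤ p * e := by have := he0.le.trans hee; positivity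
      have h6 := mul_le_mul_of_nonneg_right hq (by linarith :
        0 ≤ lp (z' (l + 1)) - lp (z (l + 1)))
      have h7 := mul_le_mul_of_nonneg_left h1 hp'.le
      refine le_of_mul_le_mul_left ?_ hp'
      push_cast
      nlinarith
  obtain ⟨l, rfl⟩ : ∃ l, J = l + 1 := ⟨J - 1, by omega⟩
  refine le_trans ?_ (key l le_rfl)
  rw [div_le_iff₀ he0] at hk
  have h1 : (k : ℝ) ≤ l := by exact_mod_cast (by omega : k ≤ l)
  have h2 : (k : ℝ) * e₀ ≤ l * e := mul_le_mul h1 hee he0.le (by positivity)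
  have h5 : 0 ≤ p * e := by have := he0.le.trans hee; positivity
  linarith

theorem rot_three {p q : ℕ} (hp : 3 ≤ p) (hc : p.Coprime q) : ∃ c : ℝ, 0 < c ∧ ∀ v : ℂ,
    ∃ β : ℂ, β ^ p = 1 ∧ c * ‖v‖ ≤ |((1 - β ^ q) * v).re| := by
  have hζ := Complex.isPrimitiveRoot_exp p (by omega)
  set ζ := Complex.exp (2 * Real.pi * Complex.I / p)
  have hη := hζ.pow_of_coprime q hc.symm
  have hn : ‖ζ ^ q‖ = 1 := norm_root (by omega) hη.pow_eq_one
  have h1 : (ζ ^ q).re ^ 2 + (ζ ^ q).im ^ 2 = 1 := by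
    have := Complex.normSq_eq_norm_sq (ζ ^ q)
    rw [hn, Complex.normSq_apply] at this
    linarith
  have h2 : (ζ ^ q).im ≠ 0 := fun h => by
    have h3 : (ζ ^ q) ^ 2 = 1 := by
      rw [h] at h1
      apply Complex.ext
      · rw [sq, Complex.mul_re, h, Complex.one_re]; linarith
      · rw [sq, Complex.mul_im, h, Complex.one_im]; ring
    have := Nat.le_of_dvd two_pos (hη.dvd_of_pow_eq_one 2 h3)
    omega
  have h3 : 0 < |(ζ ^ q).im| := abs_pos.2 h2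
  have h4 : 0 < 1 - (ζ ^ q).re := by nlinarith [sq_pos_of_ne_zero h2, sq_nonneg ((ζ ^ q).re - 1)]
  set m := min |(ζ ^ q).im| (1 - (ζ ^ q).re) with hm
  have hm0 : 0 < m := lt_min h3 h4
  refine ⟨m / 2, by positivity, fun v => ?_⟩
  by_contra hh
  push Not at hh
  have h5 := abs_lt.1 (hh ζ hζ.pow_eq_one)
  have h6 := abs_lt.1 (hh ((starRingEnd ℂ) ζ) (by rw [← map_pow, hζ.pow_eq_one, map_one]))
  rw [← map_pow] at h6
  simp only [Complex.mul_re, Complex.sub_re, Complex.one_re, Complex.sub_im, Complex.one_im,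
    Complex.conj_re, Complex.conj_im] at h5 h6
  have h7 : m * |v.re| < m / 2 * ‖v‖ := by
    refine (mul_le_mul_of_nonneg_right (min_le_right _ _) (abs_nonneg _)).trans_lt ?_
    rw [← abs_of_pos h4, ← abs_mul, abs_lt]
    constructor <;> linarith [h5.1, h5.2, h6.1, h6.2]
  have h8 : m * |v.im| < m / 2 * ‖v‖ := by
    refine (mul_le_mul_of_nonneg_right (min_le_left _ _) (abs_nonneg _)).trans_lt ?_
    rw [← abs_mul, abs_lt]
    constructor <;> linarith [h5.1, h5.2, h6.1, h6.2]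
  have h9 := mul_le_mul_of_nonneg_left (Complex.norm_le_abs_re_add_abs_im v) hm0.le
  linarith

theorem re_sq_le {v : ℂ} (h : |((1 - (-1 : ℂ)) * v).re| < 1 * ‖v‖) :
    (v ^ 2).re ≤ -(‖v‖ ^ 2 / 2) := by
  have h1 : ((1 - (-1 : ℂ)) * v).re = 2 * v.re := by
    rw [show (1 - (-1 : ℂ)) * v = v + v by ring, Complex.add_re]; ring
  have h2 := Complex.normSq_eq_norm_sq v
  rw [h1, one_mul, abs_lt] at h
  rw [Complex.normSq_apply] at h2
  rw [sq, Complex.mul_re]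
  nlinarith [h.1, h.2]

theorem rot_two {n : ℕ} (hn : Odd (n + 1)) {a y x x' : ℂ} (ha : a ≠ 0) (h : x ^ 2 + a = y)
    (h' : x' ^ 2 + a = -y) (hx : 4 * (n + 1) * ‖a‖ < ‖x ^ 2‖)
    (h1 : |((1 - (-1 : ℂ)) * (x ^ (n + 1) * (starRingEnd ℂ) a)).re| <
      1 * ‖x ^ (n + 1) * (starRingEnd ℂ) a‖)
    (h2 : |((1 - (-1 : ℂ)) * (x' ^ (n + 1) * (starRingEnd ℂ) a)).re| <
      1 * ‖x' ^ (n + 1) * (starRingEnd ℂ) a‖) : False := by
  have ha0 : 0 < ‖a‖ := norm_pos_iff.2 ha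
  have h3 := re_sq_le h1
  have h4 := re_sq_le h2
  set M := max ‖x ^ 2‖ ‖x' ^ 2‖ with hM
  have h5 := norm_pow_sub_pow (x := x ^ 2) (y := -x' ^ 2) (M := M) (le_max_left _ _)
    (by rw [norm_neg]; exact le_max_right _ _) n
  have h6 : ‖x ^ 2 - -x' ^ 2‖ = 2 * ‖a‖ := by
    rw [show x ^ 2 - -x' ^ 2 = -(2 * a) by linear_combination h + h', norm_neg, norm_mul]
    simp
  have h7 : ∀ u : ℂ, ‖u ^ (n + 1) * (starRingEnd ℂ) a‖ ^ 2 = ‖u ^ 2‖ ^ (n + 1) * ‖a‖ ^ 2 :=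
    fun u => by rw [norm_mul, norm_pow, norm_pow, Complex.norm_conj]; ring
  have h8 : M ^ (n + 1) ≤ ‖x ^ 2‖ ^ (n + 1) + ‖x' ^ 2‖ ^ (n + 1) := by
    rcases max_choice ‖x ^ 2‖ ‖x' ^ 2‖ with e | e <;> rw [hM, e]
    · exact le_add_of_nonneg_right (by positivity)
    · exact le_add_of_nonneg_left (by positivity)
  have h9 : (x ^ (n + 1) * (starRingEnd ℂ) a) ^ 2 + (x' ^ (n + 1) * (starRingEnd ℂ) a) ^ 2 =
      ((x ^ 2) ^ (n + 1) - (-x' ^ 2) ^ (n + 1)) * (starRingEnd ℂ) a ^ 2 := by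
    rw [hn.neg_pow]; ring
  have h10 := (abs_le.1 (Complex.abs_re_le_norm ((x ^ (n + 1) * (starRingEnd ℂ) a) ^ 2 +
    (x' ^ (n + 1) * (starRingEnd ℂ) a) ^ 2))).1
  rw [Complex.add_re, h9, norm_mul, norm_pow, Complex.norm_conj] at h10
  rw [h7] at h3 h4
  rw [h6] at h5
  have hxM : 4 * (n + 1) * ‖a‖ < M := hx.trans_le (le_max_left _ _)
  have hM0 : 0 < M := lt_of_le_of_lt (by positivity) hxM
  have h11 := mul_lt_mul_of_pos_right hxM (pow_pos hM0 n)
  have h12 : M ^ (n + 1) ≤ 2 * ‖(x ^ 2) ^ (n + 1) - (-x' ^ 2) ^ (n + 1)‖ := by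
    refine le_of_mul_le_mul_right ?_ (by positivity : 0 < ‖a‖ ^ 2)
    nlinarith [mul_le_mul_of_nonneg_right h8 (sq_nonneg ‖a‖)]
  rw [pow_succ] at h12
  nlinarith

/-- Two candidates of equal modulus and different direction. -/
theorem cand {p q : ℕ} (hp : 2 ≤ p) (hpq : p < q) (hc : p.Coprime q) {a : ℂ} (ha : a ≠ 0) :
    ∃ c B : ℝ, 0 < c ∧ ∀ w : ℂ, B ≤ lp w → ∃ w₁ w₂ β : ℂ, w₁ ^ p + a = w ^ q ∧
      w₂ ^ p + a = w₁ ^ q ∧ β ^ p = 1 ∧ c * ‖w₂ ^ q * (starRingEnd ℂ) a‖ ≤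
        |((1 - β ^ q) * (w₂ ^ q * (starRingEnd ℂ) a)).re| := by
  have rt : ∀ y : ℂ, ∃ x : ℂ, x ^ p + a = y := fun y => by
    obtain ⟨x, hx⟩ := IsAlgClosed.exists_pow_nat_eq (y - a) (n := p) (by omega)
    exact ⟨x, by rw [hx]; ring⟩
  rcases hp.eq_or_lt with rfl | h3
  · obtain ⟨n, rfl⟩ : ∃ n, q = n + 1 := ⟨q - 1, by omega⟩
    have hn : Odd (n + 1) := Nat.coprime_two_left.1 hc
    have ha0 : 0 < ‖a‖ := norm_pos_iff.2 ha
    have hL := log_one_add_nonneg (norm_nonneg a)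
    have h0 : 0 < 4 * ((n : ℝ) + 1) * ‖a‖ := by positivity
    refine ⟨1, Real.log (1 + ‖a‖) + 4 * (n + 1) * ‖a‖, one_pos, fun w hw => ?_⟩
    obtain ⟨w₁, h1⟩ := rt (w ^ (n + 1))
    obtain ⟨x, hx⟩ := rt (w₁ ^ (n + 1))
    obtain ⟨x', hx'⟩ := rt (-w₁ ^ (n + 1))
    by_contra hh
    push Not at hh
    have h2 := hh w₁ x (-1) h1 hx (by norm_num)
    have h3 := hh (-w₁) x' (-1) (by rw [neg_sq, h1]) (by rw [hn.neg_pow, hx']) (by norm_num)
    rw [hn.neg_one_pow] at h2 h3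
    refine rot_two hn ha hx hx' ?_ h2 h3
    have h4 := lp_up two_pos hpq h1 (by linarith)
    have h5 := lp_up two_pos hpq hx (by linarith)
    have h6 := le_norm_of_le_lp (x := x ^ 2) h0 (by
      rw [lp_pow]; push_cast; linarith [lp_nonneg x])
    linarith
  · obtain ⟨c, hc0, h⟩ := rot_three h3 hc
    refine ⟨c, 0, hc0, fun w _ => ?_⟩
    obtain ⟨w₁, h1⟩ := rt (w ^ q)
    obtain ⟨x, hx⟩ := rt (w₁ ^ q)
    obtain ⟨β, hβ⟩ := h (x ^ q * (starRingEnd ℂ) a)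
    exact ⟨w₁, x, β, h1, hx, hβ⟩

theorem ac : ACStmt := by
  intro p q a hp hpq hc ha
  have hp0 : 0 < p := by omega
  obtain ⟨c, B₀, hc0, hcand⟩ := cand hp hpq hc ha
  obtain ⟨B, hB⟩ := drift hp0 hpq ha hc0
  refine ⟨max B₀ (max B (Real.log (1 + ‖a‖))), fun W A => ?_⟩
  obtain ⟨J₁, hJ⟩ := hB (q * (q * W + Real.log (1 + ‖a‖)) + Real.log (1 + ‖a‖)) (2 * A)
  refine ⟨J₁, fun J hJ₁ w s h0 hW => ?_⟩
  rw [max_le_iff, max_le_iff] at h0
  obtain ⟨w₁, w₂, β, h1, h2, hβ, hd⟩ := hcand w h0.1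
  have h2' : (β * w₂) ^ p + a = w₁ ^ q := by rw [mul_pow, hβ, one_mul, h2]
  have hn : ‖β * w₂‖ = ‖w₂‖ := by rw [norm_mul, norm_root hp0 hβ, one_mul]
  have h3 := lp_up hp0 hpq h1 h0.2.2
  have h4 := lp_up hp0 hpq h2 (h0.2.2.trans h3)
  have hq0 : (0 : ℝ) ≤ q := by positivity
  have h5 : lp w₂ ≤ q * (q * W + Real.log (1 + ‖a‖)) + Real.log (1 + ‖a‖) :=
    (lp_dn hp0 h2).trans (add_le_add_left (mul_le_mul_of_nonneg_left ((lp_dn hp0 h1).trans
      (add_le_add_left (mul_le_mul_of_nonneg_left hW hq0) _)) hq0) _)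
  by_contra hh
  push Not at hh
  obtain ⟨z, hz0, hz, hs⟩ := hh w₁ w₂ h1 h2
  obtain ⟨z', hz0', hz', hs'⟩ := hh w₁ (β * w₂) h1 h2'
  rw [abs_lt] at hs hs'
  rw [norm_mul, Complex.norm_conj] at hd
  have e : (1 - β ^ q) * (w₂ ^ q * (starRingEnd ℂ) a) =
      (z 0 ^ q - z' 0 ^ q) * (starRingEnd ℂ) a := by rw [hz0, hz0']; ring
  rw [e] at hd
  have hl : lp (z' 0) = lp w₂ := by rw [hz0']; exact lp_congr hn
  rcases le_abs.1 hd with h | h
  · have := hJ J hJ₁ z z' hz hz' (by rw [hz0, hz0', hn]) (by rw [hz0]; linarith [h0.2.1])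
      (by rw [hz0]; exact h5) (by rwa [← hz0] at h)
    linarith [hs.1, hs'.2]
  · have := hJ J hJ₁ z' z hz' hz (by rw [hz0, hz0', hn]) (by rw [hl]; linarith [h0.2.1])
      (by rw [hl]; exact h5) (by
        rw [← Complex.neg_re, ← neg_mul, neg_sub] at h
        rwa [hz0', norm_pow, hn, ← norm_pow, ← hz0'])
    linarith [hs.2, hs'.1]

end Pool.Agent.MP_09973c_nt.H95
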