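import Pool.Agent.MP_09973c_nt.H58.SpecA

/-!
Greedy escape along chains of preimages in the complex numbers.
-/

set_option autoImplicit false

namespace Pool.Agent.MP_09973c_nt.H95

open Finset Pool.Agent.MP_09973c_nt.H58

/-- Some rotation of a root has its power in a prescribed half plane. -/
theorem exists_rot {r n : ℕ} (hr : 2 ≤ r) (hn : n.Coprime r) (y c : ℂ) :
    ∃ v : ℂ, v ^ r = y ∧ 0 ≤ (v ^ n * (starRingEnd ℂ) c).re := by
  obtain ⟨v, hv⟩ := IsAlgClosed.exists_pow_nat_eq y (n := r) (by omega)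
  have hζ := Complex.isPrimitiveRoot_exp r (by omega)
  set ζ := Complex.exp (2 * Real.pi * Complex.I / r)
  have h1 := (hζ.pow_of_coprime n hn).geom_sum_eq_zero (by omega)
  have h2 : ∑ i ∈ range r, ((ζ ^ i * v) ^ n * (starRingEnd ℂ) c).re = 0 := by
    rw [← Complex.re_sum]
    have : ∑ i ∈ range r, (ζ ^ i * v) ^ n * (starRingEnd ℂ) c =
        (∑ i ∈ range r, (ζ ^ n) ^ i) * (v ^ n * (starRingEnd ℂ) c) := by
      rw [sum_mul]
      exact sum_congr rfl fun i _ => by ring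
    rw [this, h1, zero_mul, Complex.zero_re]
  by_contra hc
  push Not at hc
  have h3 : ∑ i ∈ range r, ((ζ ^ i * v) ^ n * (starRingEnd ℂ) c).re < ∑ _i ∈ range r, (0 : ℝ) :=
    sum_lt_sum_of_nonempty ⟨0, mem_range.2 (by omega)⟩ fun i _ => hc _ (by
      rw [mul_pow, ← pow_mul, mul_comm i r, pow_mul, hζ.pow_eq_one, one_pow, one_mul, hv])
  rw [h2, sum_const_zero] at h3
  exact lt_irrefl _ h3

theorem norm_add_sq (x c : ℂ) :
    ‖x + c‖ ^ 2 = ‖x‖ ^ 2 + ‖c‖ ^ 2 + 2 * (x * (starRingEnd ℂ) c).re := by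
  rw [← Complex.normSq_eq_norm_sq, ← Complex.normSq_eq_norm_sq, ← Complex.normSq_eq_norm_sq,
    Complex.normSq_add]

theorem norm_le_add {x c : ℂ} (h : 0 ≤ (x * (starRingEnd ℂ) c).re) : ‖x‖ ≤ ‖x + c‖ := by
  refine (pow_le_pow_iff_left₀ (norm_nonneg _) (norm_nonneg _) two_ne_zero).1 ?_
  rw [norm_add_sq]
  nlinarith [sq_nonneg ‖c‖]

/-- The greedy sequence of roots leaves the unit disc. -/
theorem climb {p q : ℕ} (hpq : p < q) {a : ℂ} {v : ℕ → ℂ} (h : ∀ i, v (i + 1) ^ q = v i ^ p + a)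
    (h' : ∀ i, 0 ≤ (v (i + 1) ^ p * (starRingEnd ℂ) a).re) (k : ℕ) :
    min 1 (k * ‖a‖ ^ 2) + ‖a‖ ^ 2 ≤ ‖v (k + 1) ^ p + a‖ ^ 2 := by
  have ha := sq_nonneg ‖a‖
  have key : ∀ i, min 1 (‖v (i + 1) ^ q‖ ^ 2) + ‖a‖ ^ 2 ≤ ‖v (i + 1) ^ p + a‖ ^ 2 := fun i => by
    rw [norm_add_sq]
    have h1 : min 1 (‖v (i + 1) ^ q‖ ^ 2) ≤ ‖v (i + 1) ^ p‖ ^ 2 := by
      rw [norm_pow, norm_pow]
      rcases le_total 1 ‖v (i + 1)‖ with h1 | h1
      · exact (min_le_left _ _).trans (one_le_pow₀ (one_le_pow₀ h1))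
      · exact (min_le_right _ _).trans (pow_le_pow_left₀ (by positivity)
          (pow_le_pow_of_le_one (norm_nonneg _) h1 hpq.le) 2)
    linarith [h' i]
  induction k with
  | zero =>
    refine le_trans ?_ (key 0)
    simp
  | succ k ih =>
    refine le_trans ?_ (key (k + 1))
    rw [h (k + 1)]
    refine add_le_add_left (le_min (min_le_left _ _) (le_trans ?_ ih)) _
    rcases le_total 1 (k * ‖a‖ ^ 2) with h1 | h1
    · rw [min_eq_left h1]
      exact (min_le_left _ _).trans (by linarith)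
    · rw [min_eq_right h1]
      refine (min_le_right _ _).trans (le_of_eq ?_)
      push_cast; ring

theorem ea : EAStmt := by
  intro p q a hp hpq hc ha
  have ha2 : 0 < ‖a‖ ^ 2 := by positivity
  have hp0 : (0 : ℝ) < p := by exact_mod_cast (by omega : 0 < p)
  have hq0 : (0 : ℝ) < q := by exact_mod_cast (by omega : 0 < q)
  set L := Real.log (1 + ‖a‖ ^ 2) / (2 * q) with hL
  have hL0 : 0 < L := div_pos (Real.log_pos (by linarith)) (by positivity)
  obtain ⟨k₀, hk₀⟩ := exists_nat_ge (1 / ‖a‖ ^ 2)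
  refine ⟨L * p / q, by positivity, k₀ + 3, fun m hm ξ x j hξ hξ1 => ?_⟩
  choose g hg hg' using fun y : ℂ => exists_rot (r := q) (n := p) (by omega) hc (y ^ p + a) a
  choose f hf hf' using fun y : ℂ => exists_rot (r := p) (n := q) hp hc.symm (y ^ q - a) (-a)
  let v : ℕ → ℂ := fun i => g^[i] x
  have hv : ∀ i, v (i + 1) = g (v i) := fun i => Function.iterate_succ_apply' g i x
  have hx1 : ‖ξ‖ = 1 := norm_root (by omega) hξ
  obtain ⟨u₁, h1, h1'⟩ := exists_rot (r := q) (n := p) (by omega) hc (v (m - 2) ^ p + a)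
    (if j = 0 then a else (1 - (starRingEnd ℂ) (ξ ^ q)) * a)
  obtain ⟨u₀, h0⟩ := IsAlgClosed.exists_pow_nat_eq (u₁ ^ p + a) (n := q) (by omega)
  have hu₁ : L ≤ lp u₁ := by
    have h2 := climb hpq (v := v) (fun i => by rw [hv, hg]) (fun i => by rw [hv]; exact hg' _)
      (m - 3)
    have h3 : (1 : ℝ) ≤ (m - 3 : ℕ) * ‖a‖ ^ 2 := by
      rw [div_le_iff₀ ha2] at hk₀
      refine hk₀.trans (mul_le_mul_of_nonneg_right ?_ ha2.le)
      exact_mod_cast (by omega : k₀ ≤ m - 3)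
    rw [min_eq_left h3, show m - 3 + 1 = m - 2 by omega, ← h1, ← norm_pow (u₁ ^ q) 2,
      ← pow_mul] at h2
    have h4 : Real.log (1 + ‖a‖ ^ 2) ≤ lp (u₁ ^ (q * 2)) :=
      Real.log_le_log (by linarith) (h2.trans (le_max_right _ _))
    rw [lp_pow] at h4
    rw [hL, div_le_iff₀ (by positivity)]
    push_cast at h4
    linarith
  let t : ℕ → ℂ := fun i => f^[i] (ξ * u₀)
  have ht : ∀ i, t (i + 1) = f (t i) := fun i => Function.iterate_succ_apply' f i _
  refine ⟨fun k => if k = 0 then u₀ else if k = 1 then u₁ else v (m - k), t, ?_, ?_, rfl, ?_, ?_⟩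
  · intro k hk
    rcases k with _ | _ | k
    · simpa using h0.symm
    · simpa using h1.symm
    · simp only [Nat.add_eq_zero_iff, one_ne_zero, and_false, if_false, Nat.add_eq_right]
      rw [show m - (k + 1 + 1) = m - (k + 1 + 1 + 1) + 1 by omega, hv, hg]
  · simp only [show m ≠ 0 by omega, show m ≠ 1 by omega, if_false, Nat.sub_self]
    rfl
  · intro k _
    rw [ht, hf]; ring
  · rcases j with _ | j
    · have h2 : lp (u₁ ^ p) ≤ lp (u₀ ^ q) := lp_mono (h0 ▸ norm_le_add (by simpa using h1'))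
      rw [lp_pow, lp_pow] at h2
      rw [pow_zero, mul_one, show t 0 = ξ * u₀ from rfl, lp_unit_mul hx1, div_le_iff₀ hq0]
      nlinarith
    · simp only [Nat.add_eq_zero_iff, one_ne_zero, and_false, if_false] at h1'
      have hx2 : ‖ξ ^ q‖ = 1 := by rw [norm_pow, hx1, one_pow]
      have h2 : lp (u₁ ^ p) ≤ lp (t 1 ^ p) := lp_mono (by
        have e : t 1 ^ p = ξ ^ q * (u₁ ^ p + (1 - (starRingEnd ℂ) (ξ ^ q)) * a) := by
          have e1 : ξ ^ q * (starRingEnd ℂ) (ξ ^ q) = 1 := by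
            rw [Complex.mul_conj, Complex.normSq_eq_norm_sq, hx2]; simp
          rw [ht, hf, show t 0 = ξ * u₀ from rfl, mul_pow, h0]
          linear_combination a * e1
        rw [e, norm_mul, hx2, one_mul]
        exact norm_le_add h1')
      rw [lp_pow, lp_pow] at h2
      have h3 : ∀ i, L * ((q : ℝ) / p) ^ i ≤ lp (t (i + 1)) := fun i => by
        induction i with
        | zero => rw [pow_zero, mul_one]; exact hu₁.trans (le_of_mul_le_mul_left h2 hp0)
        | succ i ih =>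
          have h4 : lp (t (i + 1) ^ q) ≤ lp (t (i + 1 + 1) ^ p) := lp_mono (by
            rw [ht (i + 1), hf, sub_eq_add_neg]
            exact norm_le_add (by rw [ht]; exact hf' _))
          rw [lp_pow, lp_pow] at h4
          rw [pow_succ, ← mul_assoc, ← mul_div_assoc, div_le_iff₀ hp0]
          nlinarith
      refine le_trans (le_of_eq ?_) (h3 j)
      rw [pow_succ]
      field_simp

end Pool.Agent.MP_09973c_nt.H95
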